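import Pool.Agent.H777R4.DM.Stmts3
import Pool.Agent.H20R3.FreeN
import Pool.Agent.H835R4.KL1

/-! Task FREEP of the project H777-DSN. -/

set_option autoImplicit false

namespace Pool.Agent.H630R3.DM.FreeP

open Pool.Agent.H777R4.DM Pool.Agent.H428R3 Pool.Agent.H20R3.FreeN Pool.Agent.H835R4.KL1
open scoped Classical

attribute [local instance 100] LieRing.ofAssociativeRing

theorem KK_inl_long (w : W) (G : AY) (t : ℕ) (ht : (FreeMonoid.toList w).length < t)
    (hG : LenHom G t) (Y : AYY) : KK w (inl G * Y) = 0 := by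
  have e : G = ∑ a ∈ G.coeff.support, MonoidAlgebra.single a (G.coeff a) :=
    (MonoidAlgebra.sum_coeff_single G).symm
  rw [e, map_sum, Finset.sum_mul, map_sum]
  refine Finset.sum_eq_zero fun a ha => ?_
  have hal : (FreeMonoid.toList a).length = t := hG (FreeMonoid.toList a) (by
      unfold co; rw [FreeMonoid.ofList_toList]; exact Finsupp.mem_support_iff.1 ha)
  induction Y using MonoidAlgebra.induction_linear with
  | zero => simp
  | add Y₁ Y₂ h1 h2 => rw [mul_add, map_add, h1, h2, add_zero]
  | single m s =>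
    rw [inl_single, MonoidAlgebra.single_mul_single, KK_single, if_neg]
    intro h3
    have h4 := congrArg (fun z : W => (FreeMonoid.toList z).length) h3
    simp only [Prod.fst_mul, len_mul] at h4
    omega

theorem KK_inl_letter (w : W) (k : ℕ) (Y : AYY)
    (h : ∀ w', w = FreeMonoid.of k * w' → KK w' Y = 0) :
    KK w (inl (MonoidAlgebra.single (FreeMonoid.of k) 1) * Y) = 0 := by
  by_cases hw : ∃ w', w = FreeMonoid.of k * w'
  · obtain ⟨w', rfl⟩ := hw
    rw [← h w' rfl]
    clear h
    induction Y using MonoidAlgebra.induction_linear with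
    | zero => simp
    | add Y₁ Y₂ h1 h2 => rw [mul_add, map_add, h1, h2, map_add]
    | single m s =>
      rw [inl_single, MonoidAlgebra.single_mul_single, KK_single, KK_single]
      simp only [Prod.fst_mul, one_mul, Prod.snd_mul]
      by_cases hm : m.1 = w'
      · rw [if_pos hm, if_pos (by rw [hm])]
      · rw [if_neg hm, if_neg (fun h => hm (mul_left_cancel h))]
  · clear h
    induction Y using MonoidAlgebra.induction_linear with
    | zero => simp
    | add Y₁ Y₂ h1 h2 => rw [mul_add, map_add, h1, h2, add_zero]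
    | single m s =>
      rw [inl_single, MonoidAlgebra.single_mul_single, KK_single, if_neg]
      intro h3
      exact hw ⟨m.1, h3.symm⟩

theorem KK_sh_word (m : W) : ∀ w : W, (FreeMonoid.toList m).length < (FreeMonoid.toList w).length →
    KK w (shΔ (MonoidAlgebra.single m 1)) = 0 := by
  induction m using FreeMonoid.inductionOn' with
  | one =>
    intro w hw
    have : (MonoidAlgebra.single (1 : W) (1 : ℚ) : AY) = 1 := rfl
    rw [this, map_one]
    have h2 : (1 : AYY) = MonoidAlgebra.single (1, 1) 1 := rfl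
    rw [h2, KK_single, if_neg]
    intro h
    simp only at h
    rw [← h] at hw
    exact lt_irrefl _ hw
  | of_mul k l ih =>
    intro w hw
    have hl : (FreeMonoid.toList (FreeMonoid.of k * l)).length = (FreeMonoid.toList l).length + 1 := by
      rw [len_mul, add_comm]; rfl
    rw [hl] at hw
    have h1 : (MonoidAlgebra.single (FreeMonoid.of k * l) (1 : ℚ) : AY) =
        wd [k] * MonoidAlgebra.single l 1 := by
      have : (wd [k] : AY) = MonoidAlgebra.single (FreeMonoid.of k) 1 := rfl
      rw [this, MonoidAlgebra.single_mul_single, mul_one]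
    rw [h1, map_mul, sh_letter, add_mul, map_add, KK_inr, ih w (by omega), mul_zero, add_zero]
    refine KK_inl_letter w k _ fun w' hw' => ih w' ?_
    have h2 : (FreeMonoid.toList w).length = (FreeMonoid.toList w').length + 1 := by
      rw [hw', len_mul, add_comm]; rfl
    omega

theorem KK_sh_long (e : AY) (w : W)
    (h : ∀ a, e.coeff a ≠ 0 → (FreeMonoid.toList a).length < (FreeMonoid.toList w).length) :
    KK w (shΔ e) = 0 := by
  have h0 : e = ∑ a ∈ e.coeff.support, MonoidAlgebra.single a (e.coeff a) :=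
    (MonoidAlgebra.sum_coeff_single e).symm
  rw [h0, map_sum, map_sum]
  refine Finset.sum_eq_zero fun a ha => ?_
  have h1 : (MonoidAlgebra.single a (e.coeff a) : AY) = e.coeff a • MonoidAlgebra.single a 1 := by
    rw [MonoidAlgebra.smul_single, smul_eq_mul, mul_one]
  rw [h1, map_smul, map_smul, KK_sh_word a w (h a (Finsupp.mem_support_iff.1 ha)), smul_zero]

/-- the homogeneous case -/
theorem indep_hom {n r : ℕ} (σ : Fin n → AY) (ρ : Fin n → ℕ)
    (hρ : ∀ i, r ≤ ρ i ∧ ρ i + 1 ≤ 2 * r) (hσ : ∀ i, LenHom (σ i) (ρ i))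
    (hp : ∀ i, Prim (σ i)) (hli : LinearIndependent ℚ σ) (R : ℕ) (e : Fin n → AY)
    (he : ∀ i v, co (e i) v ≠ 0 → ρ i + v.length = R) (hR : R + 1 ≤ 2 * r)
    (hs : ∑ i, σ i * e i = 0) : ∀ i, e i = 0 := by
  by_contra hc
  push Not at hc
  obtain ⟨i, hi⟩ := hc
  obtain ⟨i0, h0, hmin⟩ := Finset.exists_min_image (Finset.univ.filter (fun i => e i ≠ 0)) ρ
    ⟨i, by simp [hi]⟩
  have h0' : e i0 ≠ 0 := (Finset.mem_filter.1 h0).2
  have key : ∀ w : W, (FreeMonoid.toList w).length = ρ i0 →
      ∑ i, (if ρ i = ρ i0 then (σ i).coeff w else 0) • e i = 0 := by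
    intro w hw
    have h1 : KK w (shΔ (∑ i, σ i * e i)) = 0 := by rw [hs, map_zero, map_zero]
    rw [map_sum, map_sum] at h1
    rw [← h1]
    refine Finset.sum_congr rfl fun i _ => ?_
    rw [map_mul, hp i, add_mul, map_add, KK_inr]
    by_cases hei : e i = 0
    · rw [hei]; simp
    have hm : ρ i0 ≤ ρ i := hmin i (Finset.mem_filter.2 ⟨Finset.mem_univ _, hei⟩)
    have h2 : KK w (shΔ (e i)) = 0 := by
      refine KK_sh_long (e i) w fun a ha => ?_
      have h3 := he i (FreeMonoid.toList a) (by rw [co_eq]; exact ha)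
      have h4 := (hρ i).1
      have h5 := (hρ i0).1
      omega
    rw [h2, mul_zero, add_zero]
    by_cases hii : ρ i = ρ i0
    · rw [if_pos hii, KK_inl w (σ i) (by rw [hw, ← hii]; exact hσ i), KK_sh]
    · rw [if_neg hii, zero_smul, KK_inl_long w (σ i) (ρ i) (by omega) (hσ i)]
  obtain ⟨v, hv⟩ := DMKL2.exists_co_ne h0'
  have h3 := Fintype.linearIndependent_iff.mp hli
    (fun i => if ρ i = ρ i0 then co (e i) v else 0) ?_ i0
  · rw [if_pos rfl] at h3
    exact hv h3
  · refine DMKL2.co_ext fun w => ?_
    rw [DMKL2.co_zero, co_sum]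
    by_cases hw : w.length = ρ i0
    · have h4 := congrArg (fun P : AY => co P v) (key (FreeMonoid.ofList w) hw)
      rw [co_sum, DMKL2.co_zero] at h4
      refine (Finset.sum_congr rfl fun i _ => ?_).trans h4
      rw [DMKL2.co_smul, DMKL2.co_smul]
      by_cases hii : ρ i = ρ i0
      · rw [if_pos hii, if_pos hii, mul_comm]; rfl
      · rw [if_neg hii, if_neg hii, zero_mul, zero_mul]
    · refine Finset.sum_eq_zero fun i _ => ?_
      rw [DMKL2.co_smul]
      by_cases hii : ρ i = ρ i0
      · have : co (σ i) w = 0 := by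
          by_contra hne
          exact hw ((hσ i w hne).trans hii)
        rw [this, mul_zero]
      · rw [if_neg hii, zero_mul]

theorem indep {n r : ℕ} (σ : Fin n → AY) (ρ : Fin n → ℕ)
    (hρ : ∀ i, r ≤ ρ i ∧ ρ i + 1 ≤ 2 * r) (hσ : ∀ i, LenHom (σ i) (ρ i))
    (hp : ∀ i, Prim (σ i)) (hli : LinearIndependent ℚ σ) (a : Fin n → AY)
    (hs : ∑ i, σ i * a i = 0) : ∀ i, a i = 0 := by
  by_contra hc
  push Not at hc
  obtain ⟨i, hi⟩ := hc
  obtain ⟨i1, h1, hmax⟩ := Finset.exists_max_image (Finset.univ.filter (fun i => a i ≠ 0)) ρ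
    ⟨i, by simp [hi]⟩
  have h1' : a i1 ≠ 0 := (Finset.mem_filter.1 h1).2
  obtain ⟨z, hz⟩ := DMKL2.exists_co_ne h1'
  choose e he using fun i => DMKL2.exists_quot (a i) z (ρ i1 - ρ i) 1
  have hai : ∀ i, ρ i1 < ρ i → a i = 0 := by
    intro i hi
    by_contra hne
    exact absurd (hmax i (Finset.mem_filter.2 ⟨Finset.mem_univ _, hne⟩)) (by omega)
  have h2 := indep_hom σ ρ hρ hσ hp hli (ρ i1) e ?_ (hρ i1).2 ?_ i1
  · have h3 := he i1 []
    rw [h2, DMKL2.co_zero, if_pos (by simp), one_mul, List.nil_append] at h3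
    exact hz h3.symm
  · intro i v hv
    rw [he] at hv
    by_cases hle : ρ i1 < ρ i
    · rw [hai i hle] at hv
      simp at hv
    · by_cases hl : v.length = ρ i1 - ρ i
      · omega
      · rw [if_neg hl] at hv
        exact absurd rfl hv
  · refine DMKL2.co_ext fun w => ?_
    rw [DMKL2.co_zero, co_sum]
    by_cases hw : w.length = ρ i1
    · have h3 : co (∑ i, σ i * a i) (w ++ z) = 0 := by rw [hs]; exact DMKL2.co_zero _
      rw [co_sum] at h3
      rw [← h3]
      refine Finset.sum_congr rfl fun i _ => ?_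
      rw [DMKL2.co_mul_hom (hσ i), DMKL2.co_mul_hom (hσ i)]
      by_cases hle : ρ i1 < ρ i
      · rw [if_neg (by omega), hai i hle]
        simp
      · rw [if_pos (by omega), if_pos (by rw [List.length_append]; omega),
          List.take_append_of_le_length (by omega), List.drop_append_of_le_length (by omega), he,
          if_pos (by rw [List.length_drop]; omega), one_mul]
    · refine Finset.sum_eq_zero fun i _ => ?_
      rw [DMKL2.co_mul_hom (hσ i), he]
      by_cases hle : ρ i1 < ρ i
      · rw [hai i hle]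
        simp
      · by_cases h4 : ρ i ≤ w.length
        · rw [if_pos h4, if_neg (by rw [List.length_drop]; omega), mul_zero]
        · rw [if_neg h4]

theorem taskFreeP : TaskFreeP := by
  intro n r σ ρ hr hρ hσ hp hli
  rw [injective_iff_map_eq_zero]
  have key : ∀ N : ℕ, ∀ P : Al (Fin n), (∀ l, co P l ≠ 0 → l.length < N) → lamN σ P = 0 →
      P = 0 := by
    intro N
    induction N with
    | zero =>
      intro P hP _
      refine DMKL2.co_ext fun l => ?_
      by_contra hne
      exact absurd (hP l hne) (by omega)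
    | succ N ih =>
      intro P hP hlam
      choose Q hQ using fun i => exists_lq P i
      have hdec := decomp P Q hQ
      have e1 : lamN σ P = co P [] • (1 : AY) + ∑ i, σ i * lamN σ (Q i) := by
        conv_lhs => rw [hdec]
        rw [map_add, map_smul, map_one, map_sum]
        congr 1
        refine Finset.sum_congr rfl fun i _ => ?_
        rw [map_mul, lamN_wd]
      have hc : co P [] = 0 := by
        have h2 : co (lamN σ P) [] = 0 := by rw [hlam]; exact DMKL2.co_zero _
        rw [e1, DMKL2.co_add, DMKL2.co_smul, DMKL2.co_one, if_pos rfl, co_sum,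
          Finset.sum_eq_zero (fun i _ => ?_)] at h2
        · simpa using h2
        · have := (hρ i).1
          rw [DMKL2.co_mul_hom (hσ i), if_neg (by simp; omega)]
      have e2 : ∑ i, σ i * lamN σ (Q i) = 0 := by
        rw [hlam, hc, zero_smul, zero_add] at e1
        exact e1.symm
      have hb : ∀ i, lamN σ (Q i) = 0 := indep σ ρ hρ hσ hp hli _ e2
      have z0 : ∀ i, Q i = 0 := fun i => ih (Q i) (fun l hl => by
        rw [hQ] at hl
        have := hP _ hl
        simpa using this) (hb i)
      rw [hdec, hc]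
      simp [z0]
  intro P hP
  refine key ((P.coeff.support.sup fun m => (FreeMonoid.toList m).length) + 1) P
    (fun l hl => ?_) hP
  have hmem : FreeMonoid.ofList l ∈ P.coeff.support := Finsupp.mem_support_iff.2 hl
  have := Finset.le_sup (f := fun m : FreeMonoid (Fin n) => (FreeMonoid.toList m).length) hmem
  simp only [FreeMonoid.toList_ofList] at this
  omega

end Pool.Agent.H630R3.DM.FreeP
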